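import Mathlib

/-!
# MP_db30a9_co: distinct difference configurations in free groups, basics
-/

set_option autoImplicit false

namespace Pool.Agent.X67.DDC

open Finset FreeGroup

/-- `D` is a distinct difference configuration: the elements `g⁻¹ * h` for the ordered pairs of
distinct elements of `D` are pairwise distinct -/
def IsDDC {G : Type} [Group G] (D : Finset G) : Prop :=
  ∀ g ∈ D, ∀ h ∈ D, ∀ g' ∈ D, ∀ h' ∈ D, g ≠ h → g' ≠ h' → g⁻¹ * h = g'⁻¹ * h' →
    g = g' ∧ h = h'

/-- the diameter of `D` is at most `d` -/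
def DiamLE {n : ℕ} (D : Finset (FreeGroup (Fin n))) (d : ℕ) : Prop :=
  ∀ g ∈ D, ∀ h ∈ D, (g⁻¹ * h).norm ≤ d

/-- the maximum size of a distinct difference configuration of diameter at most `d` in the free
group of rank `n` -/
noncomputable def maxDDC (n d : ℕ) : ℕ :=
  sSup {N : ℕ | ∃ D : Finset (FreeGroup (Fin n)), IsDDC D ∧ DiamLE D d ∧ D.card = N}

/-- letters -/
abbrev Letter (n : ℕ) := Fin n × Bool

variable {n : ℕ}

/-- `b` may follow `a` -/
def Ok (a b : Letter n) : Prop := a.1 = b.1 → a.2 = b.2

instance (a b : Letter n) : Decidable (Ok a b) := by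
  unfold Ok
  infer_instance

theorem split_prefix (u v : List (Letter n)) : ∃ c s t, u = c ++ s ∧ v = c ++ t ∧
    ∀ a ∈ s.head?, ∀ b ∈ t.head?, a ≠ b := by
  induction u generalizing v with
  | nil => exact ⟨[], [], v, rfl, rfl, by simp⟩
  | cons a u ih =>
    rcases v with _ | ⟨b, v⟩
    · exact ⟨[], a :: u, [], rfl, rfl, by simp⟩
    · by_cases hab : a = b
      · subst hab
        obtain ⟨c, s, t, rfl, rfl, h⟩ := ih v
        exact ⟨a :: c, s, t, rfl, rfl, h⟩
      · exact ⟨[], a :: u, b :: v, rfl, rfl, by simpa using hab⟩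

theorem isReduced_invRev {s : List (Letter n)} (hs : IsReduced s) : IsReduced (invRev s) := by
  rw [isReduced_iff_reduce_eq] at hs ⊢
  rw [reduce_invRev, hs]

theorem inv_mul_word {c s t : List (Letter n)} (h1 : IsReduced (c ++ s))
    (h2 : IsReduced (c ++ t)) (h : ∀ a ∈ s.head?, ∀ b ∈ t.head?, a ≠ b) :
    ((mk (c ++ s))⁻¹ * mk (c ++ t)).toWord = invRev s ++ t := by
  have hs : IsReduced s := (List.isChain_append.1 h1).2.1
  have ht : IsReduced t := (List.isChain_append.1 h2).2.1
  have e : (mk (c ++ s))⁻¹ * mk (c ++ t) = mk (invRev s ++ t) := by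
    rw [← mul_mk, ← mul_mk, ← mul_mk, ← inv_mk]
    group
  have hr : IsReduced (invRev s ++ t) := by
    refine List.isChain_append.2 ⟨isReduced_invRev hs, ht, ?_⟩
    intro x hx y hy
    have hx' : ∃ a ∈ s.head?, x = (a.1, !a.2) := by
      simp only [invRev, List.getLast?_reverse, List.head?_map, Option.mem_def,
        Option.map_eq_some_iff] at hx
      obtain ⟨a, ha, rfl⟩ := hx
      exact ⟨a, ha, rfl⟩
    obtain ⟨a, ha, rfl⟩ := hx'
    intro h3
    have h4 := h a ha y hy
    simp only at h3 ⊢
    by_contra h5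
    apply h4
    have h6 : a.2 = y.2 := by
      revert h5
      cases a.2 <;> cases y.2 <;> simp
    exact Prod.ext h3 h6
  rw [e, toWord_mk, hr.reduce_eq]

/-- a criterion for words of the same length -/
theorem ddc_of_c4 {L : ℕ} (S : Finset (List (Letter n))) (hred : ∀ u ∈ S, IsReduced u)
    (hlen : ∀ u ∈ S, u.length = L)
    (hC : ∀ p, ∀ u ∈ S, ∀ v ∈ S, ∀ u' ∈ S, ∀ v' ∈ S, u.take p = v.take p →
      u'.take p = v'.take p → u.drop p = u'.drop p → v.drop p = v'.drop p → u = v ∨ u = u') :
    IsDDC (S.image (mk : List (Letter n) → FreeGroup (Fin n))) := by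
  intro g hg h hh g' hg' h' hh' hgh hgh' heq
  rw [mem_image] at hg hh hg' hh'
  obtain ⟨u, hu, rfl⟩ := hg
  obtain ⟨v, hv, rfl⟩ := hh
  obtain ⟨u', hu', rfl⟩ := hg'
  obtain ⟨v', hv', rfl⟩ := hh'
  obtain ⟨c, s, t, hus, hvt, hst⟩ := split_prefix u v
  obtain ⟨c', s', t', hus', hvt', hst'⟩ := split_prefix u' v'
  have e1 := inv_mul_word (hus ▸ hred u hu) (hvt ▸ hred v hv) hst
  have e2 := inv_mul_word (hus' ▸ hred u' hu') (hvt' ▸ hred v' hv') hst'
  rw [← hus, ← hvt] at e1
  rw [← hus', ← hvt'] at e2
  have e3 : invRev s ++ t = invRev s' ++ t' := by rw [← e1, ← e2, heq]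
  have l1 := hlen u hu
  have l2 := hlen v hv
  have l3 := hlen u' hu'
  have l4 := hlen v' hv'
  have l5 := congrArg List.length e3
  rw [hus, List.length_append] at l1
  rw [hvt, List.length_append] at l2
  rw [hus', List.length_append] at l3
  rw [hvt', List.length_append] at l4
  rw [List.length_append, List.length_append, invRev_length, invRev_length] at l5
  obtain ⟨e4, e5⟩ := List.append_inj e3 (by rw [invRev_length, invRev_length]; omega)
  have e6 : s = s' := invRev_injective e4
  have hcc : c.length = c'.length := by omega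
  rcases hC c.length u hu v hv u' hu' v' hv' (by rw [hus, hvt]; simp)
    (by rw [hus', hvt', hcc]; simp) (by
      rw [hus, hus', List.drop_left, hcc, List.drop_left, e6]) (by
      rw [hvt, hvt', List.drop_left, hcc, List.drop_left, e5]) with h1 | h1
  · exact absurd (congrArg mk h1) hgh
  · have h2 : c = c' := by
      rw [hus, hus'] at h1
      exact (List.append_inj h1 hcc).1
    refine ⟨congrArg mk h1, ?_⟩
    rw [hvt, hvt', h2, e5]

/-! ### the reduced words which may follow a letter -/

theorem red_take {l : List (Letter n)} (h : IsReduced l) (s : ℕ) : IsReduced (l.take s) := by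
  have h' : IsReduced (l.take s ++ l.drop s) := by rwa [List.take_append_drop]
  exact (List.isChain_append.1 h').1

theorem red_drop {l : List (Letter n)} (h : IsReduced l) (s : ℕ) : IsReduced (l.drop s) := by
  have h' : IsReduced (l.take s ++ l.drop s) := by rwa [List.take_append_drop]
  exact (List.isChain_append.1 h').2.1

/-- the reduced words of length `k` which may follow the letter `a` -/
def W : ℕ → Letter n → Finset (List (Letter n))
  | 0, _ => {[]}
  | k + 1, a => (univ.filter fun b => Ok a b).biUnion fun b =>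
      (W k b).map ⟨List.cons b, List.cons_injective⟩

theorem mem_W {k : ℕ} {a : Letter n} {l : List (Letter n)} :
    l ∈ W k a ↔ l.length = k ∧ IsReduced (a :: l) := by
  induction k generalizing a l with
  | zero =>
    rw [W, mem_singleton, List.length_eq_zero_iff]
    constructor
    · rintro rfl
      exact ⟨rfl, IsReduced.singleton⟩
    · exact fun h => h.1
  | succ k ih =>
    simp only [W, mem_biUnion, mem_filter, mem_univ, true_and, mem_map,
      Function.Embedding.coeFn_mk]
    constructor
    · rintro ⟨b, hb, l', hl', rfl⟩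
      rw [ih] at hl'
      refine ⟨by rw [List.length_cons, hl'.1], ?_⟩
      rw [isReduced_cons_cons]
      exact ⟨hb, hl'.2⟩
    · rintro ⟨h1, h2⟩
      rcases l with _ | ⟨b, l⟩
      · simp at h1
      · rw [isReduced_cons_cons] at h2
        refine ⟨b, h2.1, l, ?_, rfl⟩
        rw [ih]
        exact ⟨by simpa using h1, h2.2⟩

theorem card_ok (a : Letter n) : (univ.filter fun b => Ok a b).card = 2 * n - 1 := by
  have h1 : (univ.filter fun b => Ok a b) = univ.erase (a.1, !a.2) := by
    ext b
    rw [mem_filter, mem_erase]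
    simp only [mem_univ, true_and, and_true]
    constructor
    · rintro h rfl
      have := h rfl
      revert this
      cases a.2 <;> simp
    · intro h h2
      by_contra h3
      apply h
      refine Prod.ext h2.symm ?_
      change b.2 = !a.2
      revert h3
      cases a.2 <;> cases b.2 <;> simp
  rw [h1, card_erase_of_mem (mem_univ _), card_univ, Fintype.card_prod, Fintype.card_fin,
    Fintype.card_bool, mul_comm]

theorem card_W (k : ℕ) (a : Letter n) : (W k a).card = (2 * n - 1) ^ k := by
  induction k generalizing a with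
  | zero => simp [W]
  | succ k ih =>
    rw [W, card_biUnion]
    · simp only [card_map, ih, sum_const, card_ok, smul_eq_mul]
      rw [pow_succ, mul_comm]
    · intro b _ b' _ hbb
      rw [Function.onFun, disjoint_left]
      intro l h1 h2
      obtain ⟨x, _, hx⟩ := mem_map.1 h1
      obtain ⟨y, _, hy⟩ := mem_map.1 h2
      apply hbb
      rw [← hx] at hy
      simp only [Function.Embedding.coeFn_mk, List.cons.injEq] at hy
      exact hy.1.symm

theorem take_mem_W {k s : ℕ} (hs : s ≤ k) {a : Letter n} {l : List (Letter n)}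
    (hl : l ∈ W k a) : l.take s ∈ W s a := by
  rw [mem_W] at hl ⊢
  refine ⟨by rw [List.length_take, hl.1, min_eq_left hs], ?_⟩
  exact red_take hl.2 (s + 1)

/-- the reduced words of length at most or equal to `k`: all words which may follow some letter -/
def R (k : ℕ) : Finset (List (Letter n)) := univ.biUnion fun a => W k a

theorem card_R_le (k : ℕ) : (R k : Finset (List (Letter n))).card ≤ 2 * n * (2 * n - 1) ^ k := by
  unfold R
  refine card_biUnion_le.trans ?_
  simp only [card_W, sum_const, smul_eq_mul, card_univ, Fintype.card_prod, Fintype.card_fin,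
    Fintype.card_bool]
  rw [mul_comm n 2]

theorem mem_R {k : ℕ} (hn : 2 ≤ n) {l : List (Letter n)} :
    l ∈ R k ↔ l.length = k ∧ IsReduced l := by
  unfold R
  rw [mem_biUnion]
  constructor
  · rintro ⟨a, _, ha⟩
    rw [mem_W] at ha
    exact ⟨ha.1, red_drop ha.2 1⟩
  · rintro ⟨h1, h2⟩
    rcases l with _ | ⟨b, l⟩
    · refine ⟨(⟨0, by omega⟩, true), mem_univ _, ?_⟩
      rw [mem_W]
      exact ⟨h1, IsReduced.singleton⟩
    · refine ⟨b, mem_univ _, ?_⟩
      rw [mem_W]
      refine ⟨h1, ?_⟩
      rw [isReduced_cons_cons]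
      exact ⟨fun _ => rfl, h2⟩

theorem drop_mem_R {k s : ℕ} (hn : 2 ≤ n) {a : Letter n} {l : List (Letter n)}
    (hl : l ∈ W k a) : l.drop s ∈ R (k - s) := by
  rw [mem_W] at hl
  rw [mem_R hn]
  refine ⟨by rw [List.length_drop, hl.1], ?_⟩
  exact red_drop hl.2 (s + 1)

end Pool.Agent.X67.DDC
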