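import Pool.Agent.X67.DDC.Base

/-!
# MP_db30a9_co: additive codes
-/

set_option autoImplicit false

namespace Pool.Agent.X67.DDC

open Finset FreeGroup

variable {n k P : ℕ}

/-- the value of the letter `a` at position `i` -/
def cf (f : Fin k × Letter n → ZMod P) (i : ℕ) (a : Letter n) : ZMod P :=
  if h : i < k then f (⟨i, h⟩, a) else 0

/-- the code of a word which starts at position `i` -/
def code (f : Fin k × Letter n → ZMod P) : ℕ → List (Letter n) → ZMod P
  | _, [] => 0
  | i, a :: l => cf f i a + code f (i + 1) l

theorem code_append (f : Fin k × Letter n → ZMod P) (i : ℕ) (u v : List (Letter n)) :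
    code f i (u ++ v) = code f i u + code f (i + u.length) v := by
  induction u generalizing i with
  | nil => simp [code]
  | cons a u ih =>
    rw [List.cons_append, code, code, ih, List.length_cons,
      show i + (u.length + 1) = i + 1 + u.length by ring]
    exact (add_assoc _ _ _).symm

theorem cf_add (f g : Fin k × Letter n → ZMod P) (t : ZMod P) (i : ℕ) (a : Letter n) :
    cf (f + t • g) i a = cf f i a + t * cf g i a := by
  unfold cf
  split_ifs
  · simp
  · simp

theorem code_add (f g : Fin k × Letter n → ZMod P) (t : ZMod P) (i : ℕ) (l : List (Letter n)) :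
    code (f + t • g) i l = code f i l + t * code g i l := by
  induction l generalizing i with
  | nil => simp [code]
  | cons a l ih =>
    rw [code, code, code, ih, cf_add]
    ring

theorem code_single {i j : ℕ} (h : i < k) (a : Letter n) (hij : i < j) (l : List (Letter n)) :
    code (Pi.single (⟨i, h⟩, a) 1 : Fin k × Letter n → ZMod P) j l = 0 := by
  induction l generalizing j with
  | nil => rfl
  | cons b l ih =>
    rw [code, ih (by omega), add_zero]
    unfold cf
    split_ifs with hj
    · rw [Pi.single_eq_of_ne]
      intro e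
      rw [Prod.mk.injEq, Fin.mk.injEq] at e
      omega
    · rfl

theorem cf_single_self {i : ℕ} (h : i < k) (a : Letter n) :
    cf (Pi.single (⟨i, h⟩, a) 1 : Fin k × Letter n → ZMod P) i a = 1 := by
  unfold cf
  rw [dif_pos h, Pi.single_eq_same]

theorem cf_single_ne {i : ℕ} (h : i < k) {a b : Letter n} (hab : a ≠ b) :
    cf (Pi.single (⟨i, h⟩, a) 1 : Fin k × Letter n → ZMod P) i b = 0 := by
  unfold cf
  rw [dif_pos h, Pi.single_eq_of_ne]
  intro e
  rw [Prod.mk.injEq] at e
  exact hab e.2.symm

/-- a direction in which the difference of the codes of two words grows -/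
theorem exists_dir {i : ℕ} {u v : List (Letter n)} (hl : u.length = v.length) (huv : u ≠ v)
    (hk : i + u.length ≤ k) :
    ∃ g : Fin k × Letter n → ZMod P, code g i u - code g i v = 1 := by
  induction u generalizing v i with
  | nil =>
    rw [List.length_nil] at hl
    exact absurd (List.length_eq_zero_iff.1 hl.symm).symm huv
  | cons a u ih =>
    rcases v with _ | ⟨b, v⟩
    · simp at hl
    · rw [List.length_cons] at hk
      have hi : i < k := by omega
      by_cases hab : a = b
      · subst hab
        obtain ⟨g, hg⟩ := ih (i := i + 1) (v := v) (by simpa using hl)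
          (fun e => huv (by rw [e])) (by omega)
        refine ⟨g, ?_⟩
        rw [code, code, ← hg]
        ring
      · refine ⟨Pi.single (⟨i, hi⟩, a) 1, ?_⟩
        rw [code, code, code_single hi a (Nat.lt_succ_self i),
          code_single hi a (Nat.lt_succ_self i), cf_single_self, cf_single_ne hi hab]
        ring

theorem exists_dir0 {i : ℕ} {u : List (Letter n)} (hu : u ≠ [])
    (hk : i + u.length ≤ k) :
    ∃ g : Fin k × Letter n → ZMod P, code g i u = 1 := by
  rcases u with _ | ⟨a, u⟩
  · exact absurd rfl hu
  · rw [List.length_cons] at hk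
    have hi : i < k := by omega
    refine ⟨Pi.single (⟨i, hi⟩, a) 1, ?_⟩
    rw [code, code_single hi a (Nat.lt_succ_self i), cf_single_self, add_zero]

/-- the probability that a functional vanishes -/
theorem card_zero_mul [NeZero P] (Φ : (Fin k × Letter n → ZMod P) → ZMod P)
    (hΦ : ∃ g, ∀ f t, Φ (f + t • g) = Φ f + t) :
    (univ.filter fun f => Φ f = 0).card * P ≤
      Fintype.card (Fin k × Letter n → ZMod P) := by
  obtain ⟨g, hg⟩ := hΦ
  have h1 : (univ.filter fun f => Φ f = 0).card * P =
      ((univ.filter fun f => Φ f = 0) ×ˢ (univ : Finset (ZMod P))).card := by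
    rw [card_product, card_univ, ZMod.card]
  rw [h1, ← card_univ]
  apply card_le_card_of_injOn (fun q => q.1 + q.2 • g) (fun _ _ => mem_coe.2 (mem_univ _))
  rintro ⟨f, t⟩ h ⟨f', t'⟩ h' heq
  rw [mem_coe, mem_product, mem_filter] at h h'
  have e1 : Φ (f + t • g) = Φ (f' + t' • g) := congrArg Φ heq
  rw [hg, hg] at e1
  have h2 : Φ f = 0 := h.1.2
  have h3 : Φ f' = 0 := h'.1.2
  rw [h2, h3, zero_add, zero_add] at e1
  subst e1
  have e2 : f + t • g = f' + t • g := heq
  rw [add_right_cancel e2]

theorem card_coll [NeZero P] {i : ℕ} {u v : List (Letter n)} (hl : u.length = v.length)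
    (huv : u ≠ v) (hk : i + u.length ≤ k) :
    (univ.filter fun f : Fin k × Letter n → ZMod P => code f i u = code f i v).card * P ≤
      Fintype.card (Fin k × Letter n → ZMod P) := by
  obtain ⟨g, hg⟩ := exists_dir (P := P) hl huv hk
  have := card_zero_mul (fun f => code f i u - code f i v) ⟨g, fun f t => by
    rw [code_add, code_add]
    linear_combination t * hg⟩
  simpa only [sub_eq_zero] using this

theorem card_coll0 [NeZero P] {i : ℕ} {u : List (Letter n)} (hu : u ≠ [])
    (hk : i + u.length ≤ k) :
    (univ.filter fun f : Fin k × Letter n → ZMod P => code f i u = 0).card * P ≤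
      Fintype.card (Fin k × Letter n → ZMod P) := by
  obtain ⟨g, hg⟩ := exists_dir0 (P := P) hu hk
  exact card_zero_mul (fun f => code f i u) ⟨g, fun f t => by rw [code_add, hg, mul_one]⟩

/-- `f` is bad for the word `y` -/
def BadWord (f : Fin k × Letter n → ZMod P) (a : Letter n) (y : List (Letter n)) : Prop :=
  (∃ s, s ≤ k ∧ ∃ v ∈ W s a, v ≠ y.take s ∧ code f 0 (y.take s) = code f 0 v) ∨
  (∃ s, s ≤ k ∧ ∃ v ∈ (R (k - s) : Finset (List (Letter n))), v ≠ y.drop s ∧
    code f s (y.drop s) = code f s v) ∨ code f 0 y = 0

open scoped Classical in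
theorem card_badf [NeZero P] (hn : 2 ≤ n) (hk : 1 ≤ k) (a : Letter n) {y : List (Letter n)}
    (hy : y ∈ W k a) :
    (univ.filter fun f : Fin k × Letter n → ZMod P => BadWord f a y).card * P ≤
      (∑ s ∈ range (k + 1), (2 * n - 1) ^ s + ∑ s ∈ range (k + 1), 2 * n * (2 * n - 1) ^ (k - s)
        + 1) * Fintype.card (Fin k × Letter n → ZMod P) := by
  classical
  set N := Fintype.card (Fin k × Letter n → ZMod P) with hN
  have hylen : y.length = k := (mem_W.1 hy).1
  let A : Finset (Fin k × Letter n → ZMod P) := (range (k + 1)).biUnion fun s =>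
    ((W s a).filter fun v => v ≠ y.take s).biUnion fun v =>
      univ.filter fun f => code f 0 (y.take s) = code f 0 v
  let B : Finset (Fin k × Letter n → ZMod P) := (range (k + 1)).biUnion fun s =>
    ((R (k - s)).filter fun v => v ≠ y.drop s).biUnion fun v =>
      univ.filter fun f => code f s (y.drop s) = code f s v
  let C : Finset (Fin k × Letter n → ZMod P) := univ.filter fun f => code f 0 y = 0
  have hsub : (univ.filter fun f : Fin k × Letter n → ZMod P => BadWord f a y) ⊆ A ∪ B ∪ C := by
    intro f hf
    rw [mem_filter] at hf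
    rcases hf.2 with ⟨s, hs, v, hv, h1, h2⟩ | ⟨s, hs, v, hv, h1, h2⟩ | h
    · refine mem_union_left _ (mem_union_left _ ?_)
      exact mem_biUnion.2 ⟨s, mem_range.2 (by omega), mem_biUnion.2
        ⟨v, mem_filter.2 ⟨hv, h1⟩, mem_filter.2 ⟨mem_univ _, h2⟩⟩⟩
    · refine mem_union_left _ (mem_union_right _ ?_)
      exact mem_biUnion.2 ⟨s, mem_range.2 (by omega), mem_biUnion.2
        ⟨v, mem_filter.2 ⟨hv, h1⟩, mem_filter.2 ⟨mem_univ _, h2⟩⟩⟩
    · exact mem_union_right _ (mem_filter.2 ⟨mem_univ _, h⟩)
  have hA : A.card * P ≤ (∑ s ∈ range (k + 1), (2 * n - 1) ^ s) * N := by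
    calc A.card * P ≤ (∑ s ∈ range (k + 1), (((W s a).filter fun v => v ≠ y.take s).biUnion
          fun v => univ.filter fun f : Fin k × Letter n → ZMod P =>
            code f 0 (y.take s) = code f 0 v).card) * P := Nat.mul_le_mul_right _ card_biUnion_le
      _ = ∑ s ∈ range (k + 1), (((W s a).filter fun v => v ≠ y.take s).biUnion
          fun v => univ.filter fun f : Fin k × Letter n → ZMod P =>
            code f 0 (y.take s) = code f 0 v).card * P := sum_mul _ _ _
      _ ≤ ∑ s ∈ range (k + 1), (2 * n - 1) ^ s * N := by
          apply sum_le_sum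
          intro s hs
          rw [mem_range] at hs
          calc _ ≤ (∑ v ∈ (W s a).filter fun v => v ≠ y.take s, (univ.filter
                fun f : Fin k × Letter n → ZMod P =>
                  code f 0 (y.take s) = code f 0 v).card) * P :=
                Nat.mul_le_mul_right _ card_biUnion_le
            _ = ∑ v ∈ (W s a).filter fun v => v ≠ y.take s, (univ.filter
                fun f : Fin k × Letter n → ZMod P =>
                  code f 0 (y.take s) = code f 0 v).card * P := sum_mul _ _ _
            _ ≤ ∑ v ∈ (W s a).filter fun v => v ≠ y.take s, N := by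
                apply sum_le_sum
                intro v hv
                rw [mem_filter, mem_W] at hv
                have hlt : (y.take s).length = s := by
                  rw [List.length_take, hylen]
                  omega
                apply card_coll
                · rw [hlt, hv.1.1]
                · exact fun e => hv.2 e.symm
                · rw [hlt]
                  omega
            _ = ((W s a).filter fun v => v ≠ y.take s).card * N := by
                rw [sum_const, smul_eq_mul]
            _ ≤ (W s a).card * N := Nat.mul_le_mul_right _ (card_filter_le _ _)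
            _ = (2 * n - 1) ^ s * N := by rw [card_W]
      _ = (∑ s ∈ range (k + 1), (2 * n - 1) ^ s) * N := (sum_mul _ _ _).symm
  have hB : B.card * P ≤ (∑ s ∈ range (k + 1), 2 * n * (2 * n - 1) ^ (k - s)) * N := by
    calc B.card * P ≤ (∑ s ∈ range (k + 1), (((R (k - s)).filter fun v => v ≠ y.drop s).biUnion
          fun v => univ.filter fun f : Fin k × Letter n → ZMod P =>
            code f s (y.drop s) = code f s v).card) * P := Nat.mul_le_mul_right _ card_biUnion_le
      _ = ∑ s ∈ range (k + 1), (((R (k - s)).filter fun v => v ≠ y.drop s).biUnion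
          fun v => univ.filter fun f : Fin k × Letter n → ZMod P =>
            code f s (y.drop s) = code f s v).card * P := sum_mul _ _ _
      _ ≤ ∑ s ∈ range (k + 1), 2 * n * (2 * n - 1) ^ (k - s) * N := by
          apply sum_le_sum
          intro s hs
          rw [mem_range] at hs
          calc _ ≤ (∑ v ∈ (R (k - s)).filter fun v => v ≠ y.drop s, (univ.filter
                fun f : Fin k × Letter n → ZMod P =>
                  code f s (y.drop s) = code f s v).card) * P :=
                Nat.mul_le_mul_right _ card_biUnion_le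
            _ = ∑ v ∈ (R (k - s)).filter fun v => v ≠ y.drop s, (univ.filter
                fun f : Fin k × Letter n → ZMod P =>
                  code f s (y.drop s) = code f s v).card * P := sum_mul _ _ _
            _ ≤ ∑ v ∈ (R (k - s)).filter fun v => v ≠ y.drop s, N := by
                apply sum_le_sum
                intro v hv
                rw [mem_filter, mem_R hn] at hv
                have hlt : (y.drop s).length = k - s := by
                  rw [List.length_drop, hylen]
                apply card_coll
                · rw [hlt, hv.1.1]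
                · exact fun e => hv.2 e.symm
                · rw [hlt]
                  omega
            _ = ((R (k - s)).filter fun v => v ≠ y.drop s).card * N := by
                rw [sum_const, smul_eq_mul]
            _ ≤ (R (k - s) : Finset (List (Letter n))).card * N :=
                Nat.mul_le_mul_right _ (card_filter_le _ _)
            _ ≤ 2 * n * (2 * n - 1) ^ (k - s) * N := Nat.mul_le_mul_right _ (card_R_le _)
      _ = (∑ s ∈ range (k + 1), 2 * n * (2 * n - 1) ^ (k - s)) * N := (sum_mul _ _ _).symm
  have hC : C.card * P ≤ 1 * N := by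
    rw [one_mul]
    apply card_coll0
    · intro e
      rw [e, List.length_nil] at hylen
      omega
    · rw [hylen, zero_add]
  calc _ ≤ (A ∪ B ∪ C).card * P := Nat.mul_le_mul_right _ (card_le_card hsub)
    _ ≤ (A.card + B.card + C.card) * P := Nat.mul_le_mul_right _
        ((card_union_le _ _).trans (Nat.add_le_add_right (card_union_le _ _) _))
    _ = A.card * P + B.card * P + C.card * P := by ring
    _ ≤ _ := by
        rw [add_mul, add_mul]
        exact Nat.add_le_add (Nat.add_le_add hA hB) hC

theorem sum_pow_le {q : ℕ} (hq : 3 ≤ q) (k : ℕ) :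
    2 * ∑ s ∈ range (k + 1), q ^ s ≤ 3 * q ^ k := by
  induction k with
  | zero => simp
  | succ k ih =>
    rw [sum_range_succ, mul_add]
    have : 3 * q ^ k ≤ q ^ (k + 1) := by
      rw [pow_succ, mul_comm]
      exact Nat.mul_le_mul_left _ hq
    omega

open scoped Classical in
/-- good codes exist -/
theorem exists_code [NeZero P] (hn : 2 ≤ n) (hk : 1 ≤ k) (a : Letter n)
    (hP : (6 * n + 5) * (2 * n - 1) ^ k ≤ P) :
    ∃ f : Fin k × Letter n → ZMod P,
      (2 * n - 1) ^ k ≤ 2 * ((W k a).filter fun y => ¬ BadWord f a y).card := by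
  classical
  set N := Fintype.card (Fin k × Letter n → ZMod P) with hN
  set q := 2 * n - 1 with hq
  have hq3 : 3 ≤ q := by omega
  have hNpos : 0 < N := Fintype.card_pos
  have hPpos : 0 < P := NeZero.pos P
  by_contra hcon
  push Not at hcon
  -- double counting
  have h1 : ∑ f : Fin k × Letter n → ZMod P, ((W k a).filter fun y => BadWord f a y).card =
      ∑ y ∈ W k a, (univ.filter fun f : Fin k × Letter n → ZMod P => BadWord f a y).card := by
    simp only [card_filter]
    rw [sum_comm]
  have h2 : (∑ y ∈ W k a,
      (univ.filter fun f : Fin k × Letter n → ZMod P => BadWord f a y).card) * P ≤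
      q ^ k * ((∑ s ∈ range (k + 1), q ^ s + ∑ s ∈ range (k + 1), 2 * n * q ^ (k - s)
        + 1) * N) := by
    rw [sum_mul]
    calc _ ≤ ∑ y ∈ W k a, ((∑ s ∈ range (k + 1), q ^ s +
          ∑ s ∈ range (k + 1), 2 * n * q ^ (k - s) + 1) * N) :=
          sum_le_sum fun y hy => card_badf hn hk a hy
      _ = _ := by rw [sum_const, card_W, smul_eq_mul]
  have h3 : ∀ f : Fin k × Letter n → ZMod P,
      q ^ k < 2 * ((W k a).filter fun y => BadWord f a y).card := by
    intro f
    have e1 := hcon f
    have e2 := card_filter_add_card_filter_not (s := W k a) (fun y => BadWord f a y)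
    rw [card_W, ← hq] at e2
    omega
  have h4 : N * (q ^ k + 1) ≤
      2 * ∑ f : Fin k × Letter n → ZMod P, ((W k a).filter fun y => BadWord f a y).card := by
    rw [mul_sum]
    calc N * (q ^ k + 1) = ∑ _f : Fin k × Letter n → ZMod P, (q ^ k + 1) := by
          rw [sum_const, card_univ, smul_eq_mul]
      _ ≤ _ := sum_le_sum fun f _ => h3 f
  have hs1 := sum_pow_le hq3 k
  have hs2 : ∑ s ∈ range (k + 1), 2 * n * q ^ (k - s) = 2 * n * ∑ s ∈ range (k + 1), q ^ s := by
    rw [mul_sum]
    rw [← sum_range_reflect]
    apply sum_congr rfl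
    intro s hs
    rw [mem_range] at hs
    congr 2
    omega
  rw [h1] at h4
  have h5 : N * (q ^ k + 1) * P ≤ 2 * (q ^ k * ((∑ s ∈ range (k + 1), q ^ s +
      ∑ s ∈ range (k + 1), 2 * n * q ^ (k - s) + 1) * N)) := by
    calc _ ≤ 2 * (∑ y ∈ W k a, (univ.filter fun f : Fin k × Letter n → ZMod P =>
          BadWord f a y).card) * P := Nat.mul_le_mul_right _ h4
      _ = 2 * ((∑ y ∈ W k a, (univ.filter fun f : Fin k × Letter n → ZMod P =>
          BadWord f a y).card) * P) := by ring
      _ ≤ _ := Nat.mul_le_mul_left _ h2
  rw [hs2] at h5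
  have h6 : (q ^ k + 1) * P ≤ q ^ k * (2 * (∑ s ∈ range (k + 1), q ^ s +
      2 * n * ∑ s ∈ range (k + 1), q ^ s + 1)) := by
    apply Nat.le_of_mul_le_mul_left _ hNpos
    calc N * ((q ^ k + 1) * P) = N * (q ^ k + 1) * P := by ring
      _ ≤ _ := h5
      _ = _ := by ring
  have hpow : 1 ≤ q ^ k := Nat.one_le_pow _ _ (by omega)
  have h7 : 2 * (∑ s ∈ range (k + 1), q ^ s + 2 * n * ∑ s ∈ range (k + 1), q ^ s + 1) ≤
      (6 * n + 5) * q ^ k := by
    calc _ = (1 + 2 * n) * (2 * ∑ s ∈ range (k + 1), q ^ s) + 2 := by ring
      _ ≤ (1 + 2 * n) * (3 * q ^ k) + 2 * q ^ k :=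
          Nat.add_le_add (Nat.mul_le_mul_left _ hs1) (by omega)
      _ = _ := by ring
  have h8 : (q ^ k + 1) * P ≤ q ^ k * P :=
    h6.trans (Nat.mul_le_mul_left _ (h7.trans hP))
  have h9 : (q ^ k + 1) * P = q ^ k * P + P := by ring
  omega

end Pool.Agent.X67.DDC
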