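import Pool.Agent.X67.DDC.Code

/-!
# MP_db30a9_co: the construction
-/

set_option autoImplicit false

namespace Pool.Agent.X67.DDC

open Finset FreeGroup

variable {n : ℕ}

/-- the bridge after the word `l`; it ends with the letter `e` -/
def br (e f : Letter n) (l : List (Letter n)) : List (Letter n) :=
  if l.getLast? = some (e.1, !e.2) then [f, e] else [e, e]

theorem br_length (e f : Letter n) (l : List (Letter n)) : (br e f l).length = 2 := by
  unfold br
  split_ifs <;> rfl

theorem br_eq (e f : Letter n) (l : List (Letter n)) : ∃ c, br e f l = [c, e] := by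
  unfold br
  split_ifs
  · exact ⟨f, rfl⟩
  · exact ⟨e, rfl⟩

theorem red_br {e f : Letter n} (hef : e.1 ≠ f.1) {l w : List (Letter n)}
    (hl : IsReduced (e :: l)) (hw : IsReduced (e :: w)) :
    IsReduced (e :: (l ++ (br e f l ++ w))) := by
  have h1 : IsReduced ((e :: l) ++ br e f l) := by
    refine List.isChain_append.2 ⟨hl, ?_, ?_⟩
    · unfold br
      split_ifs
      · exact List.isChain_cons_cons.2 ⟨fun h => absurd h.symm hef, List.isChain_singleton _⟩
      · exact List.isChain_cons_cons.2 ⟨fun _ => rfl, List.isChain_singleton _⟩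
    · intro x hx y hy
      rcases List.eq_nil_or_concat l with rfl | ⟨l', b, rfl⟩
      · have hx' : x = e := by simpa using hx.symm
        subst hx'
        have hy' : y = x := by
          simpa [br] using hy.symm
        subst hy'
        exact fun _ => rfl
      · rw [List.concat_eq_append] at hx hy
        have hlast : (l' ++ [b]).getLast? = some b := by simp
        have hx' : x = b := by
          rw [← List.cons_append, Option.mem_def, List.getLast?_append] at hx
          simpa using hx.symm
        subst hx'
        unfold br at hy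
        split_ifs at hy with hb
        · have hy' : y = f := by simpa using hy.symm
          subst hy'
          rw [hlast] at hb
          have hx'' : x = (e.1, !e.2) := Option.some.inj hb
          intro h
          rw [hx''] at h
          exact absurd h hef
        · have hy' : y = e := by simpa using hy.symm
          subst hy'
          intro h
          by_contra h2
          apply hb
          rw [hlast]
          congr 1
          refine Prod.ext h ?_
          change x.2 = !y.2
          revert h2
          cases x.2 <;> cases y.2 <;> simp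
  obtain ⟨c, hc⟩ := br_eq e f l
  rw [hc] at h1 ⊢
  have h2 : IsReduced (((e :: l) ++ [c]) ++ [e]) := by
    simpa using h1
  have h3 := h2.append_overlap (L₃ := w) hw (by simp)
  simpa using h3

/-- the words of the configuration -/
def wd (e f : Letter n) (x y z : List (Letter n)) : List (Letter n) :=
  (x ++ br e f x) ++ (y ++ (br e f y ++ z))

theorem wd_inj {e f : Letter n} {x y z x' y' z' : List (Letter n)} (hx : x.length = x'.length)
    (hy : y.length = y'.length) (h : wd e f x y z = wd e f x' y' z') :
    x = x' ∧ y = y' ∧ z = z' := by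
  unfold wd at h
  obtain ⟨h1, h2⟩ := List.append_inj h (by simp [br_length, hx])
  obtain ⟨h3, _⟩ := List.append_inj h1 hx
  obtain ⟨h4, h5⟩ := List.append_inj h2 hy
  obtain ⟨_, h6⟩ := List.append_inj h5 (by simp [br_length])
  exact ⟨h3, h4, h6⟩

/-- large configurations -/
theorem lower (hn : 2 ≤ n) {k : ℕ} (hk : 1 ≤ k) :
    ∃ D : Finset (FreeGroup (Fin n)), IsDDC D ∧ DiamLE D (6 * k + 16) ∧
      (2 * n - 1) ^ (2 * k) ≤ 2 * D.card := by
  classical
  set q := 2 * n - 1 with hq
  have hq3 : 3 ≤ q := by omega
  let e : Letter n := (⟨0, by omega⟩, true)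
  let f0 : Letter n := (⟨1, by omega⟩, true)
  have hef : e.1 ≠ f0.1 := by
    intro h
    have := congrArg Fin.val h
    simp [e, f0] at this
  have hqk : 1 ≤ q ^ k := Nat.one_le_pow _ _ (by omega)
  obtain ⟨P, hPp, hP1, hP2⟩ := Nat.exists_prime_lt_and_le_two_mul ((6 * n + 5) * q ^ k)
    (by positivity)
  have : Fact P.Prime := ⟨hPp⟩
  have : NeZero P := ⟨hPp.ne_zero⟩
  obtain ⟨f, hf⟩ := exists_code (P := P) hn hk e hP1.le
  set Y := (W k e).filter fun y => ¬ BadWord f e y with hY
  rw [← hq] at hf
  obtain ⟨X⟩ : Nonempty (↥(W k e) ↪ (ZMod P)ˣ) := by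
    apply Function.Embedding.nonempty_of_card_le
    rw [Fintype.card_coe, card_W, ZMod.card_units_eq_totient, Nat.totient_prime hPp, ← hq]
    have : q ^ k ≤ (6 * n + 5) * q ^ k := Nat.le_mul_of_pos_left _ (by omega)
    omega
  obtain ⟨Z⟩ : Nonempty (ZMod P ↪ ↥(W (k + 4) e)) := by
    apply Function.Embedding.nonempty_of_card_le
    rw [Fintype.card_coe, card_W, ZMod.card, ← hq]
    refine hP2.trans ?_
    have e1 : 6 * n + 5 = 3 * q + 8 := by omega
    have e2 : 2 * (3 * q + 8) ≤ q ^ 4 := by
      have : 27 * q ≤ q ^ 4 := by
        calc 27 * q = 3 ^ 3 * q := by norm_num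
          _ ≤ q ^ 3 * q := Nat.mul_le_mul_right _ (Nat.pow_le_pow_left hq3 3)
          _ = q ^ 4 := by ring
      omega
    calc 2 * ((6 * n + 5) * q ^ k) = (2 * (3 * q + 8)) * q ^ k := by rw [e1]; ring
      _ ≤ q ^ 4 * q ^ k := Nat.mul_le_mul_right _ e2
      _ = q ^ (k + 4) := by ring
  -- the words
  let w : ↥(W k e) × ↥Y → List (Letter n) := fun i =>
    wd e f0 i.1.1 i.2.1 (Z ((X i.1 : ZMod P) * code f 0 i.2.1)).1
  have hxl : ∀ x : ↥(W k e), x.1.length = k := fun x => (mem_W.1 x.2).1
  have hyW : ∀ y : ↥Y, y.1 ∈ W k e := fun y => (mem_filter.1 y.2).1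
  have hyl : ∀ y : ↥Y, y.1.length = k := fun y => (mem_W.1 (hyW y)).1
  have hyb : ∀ y : ↥Y, ¬ BadWord f e y.1 := fun y => (mem_filter.1 y.2).2
  have hwinj : Function.Injective w := by
    rintro ⟨x, y⟩ ⟨x', y'⟩ h
    obtain ⟨h1, h2, _⟩ := wd_inj (by rw [hxl, hxl]) (by rw [hyl, hyl]) h
    exact Prod.ext (Subtype.ext h1) (Subtype.ext h2)
  have hwred : ∀ i, IsReduced (w i) := by
    intro i
    have h1 : IsReduced (e :: (i.2.1 ++ (br e f0 i.2.1 ++
        (Z ((X i.1 : ZMod P) * code f 0 i.2.1)).1))) :=
      red_br hef (mem_W.1 (hyW i.2)).2 (mem_W.1 (Z _).2).2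
    have h2 := red_br hef (mem_W.1 i.1.2).2 h1
    have h3 := (List.isChain_cons.1 h2).2
    have h4 : w i = i.1.1 ++ (br e f0 i.1.1 ++ (i.2.1 ++ (br e f0 i.2.1 ++
        (Z ((X i.1 : ZMod P) * code f 0 i.2.1)).1))) := by
      simp only [w, wd, List.append_assoc]
    rw [h4]
    exact h3
  have hwlen : ∀ i, (w i).length = 3 * k + 8 := by
    intro i
    simp only [w, wd, List.length_append, br_length, hxl, hyl, (mem_W.1 (Z _).2).1]
    omega
  have hC : ∀ p, ∀ i i1 i' i1' : ↥(W k e) × ↥Y, (w i).take p = (w i1).take p →
      (w i').take p = (w i1').take p → (w i).drop p = (w i').drop p →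
      (w i1).drop p = (w i1').drop p → i = i1 ∨ i = i' := by
    rintro p ⟨x, y⟩ ⟨x1, y1⟩ ⟨x', y'⟩ ⟨x1', y1'⟩ h1 h2 h3 h4
    by_cases hp1 : p ≤ k + 2
    · right
      have h5 : (w (x, y)).drop (k + 2) = (w (x', y')).drop (k + 2) := by
        have := congrArg (List.drop (k + 2 - p)) h3
        rw [List.drop_drop, List.drop_drop, show p + (k + 2 - p) = k + 2 by omega] at this
        exact this
      simp only [w, wd] at h5
      rw [List.drop_left' (by simp [br_length, hxl]), List.drop_left' (by simp [br_length, hxl])]
        at h5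
      obtain ⟨h6, h7⟩ := List.append_inj h5 (by rw [hyl, hyl])
      obtain ⟨_, h8⟩ := List.append_inj h7 (by simp [br_length])
      have h9 := Z.injective (Subtype.ext h8)
      rw [h6] at h9
      have hne : code f 0 y'.1 ≠ 0 := fun h => hyb y' (Or.inr (Or.inr h))
      have h10 : (X x : ZMod P) = X x' := mul_right_cancel₀ hne h9
      have h11 : x = x' := X.injective (Units.ext h10)
      exact Prod.ext h11 (Subtype.ext h6)
    · by_cases hp2 : 2 * k + 2 ≤ p
      · left
        have h5 : (w (x, y)).take (2 * k + 2) = (w (x1, y1)).take (2 * k + 2) := by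
          have := congrArg (List.take (2 * k + 2)) h1
          rw [List.take_take, List.take_take, min_eq_left hp2] at this
          exact this
        simp only [w, wd] at h5
        rw [← List.append_assoc _ y.1, ← List.append_assoc _ y1.1,
          List.take_left' (by simp [br_length, hxl, hyl]; omega),
          List.take_left' (by simp [br_length, hxl, hyl]; omega)] at h5
        obtain ⟨h6, h7⟩ := List.append_inj h5 (by simp [br_length, hxl])
        obtain ⟨h8, _⟩ := List.append_inj h6 (by rw [hxl, hxl])
        exact Prod.ext (Subtype.ext h8) (Subtype.ext h7)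
      · obtain ⟨s, rfl⟩ : ∃ s, p = (k + 2) + s := ⟨p - (k + 2), by omega⟩
        have hs : s ≤ k := by omega
        have htake : ∀ i : ↥(W k e) × ↥Y, (w i).take (k + 2 + s) =
            (i.1.1 ++ br e f0 i.1.1) ++ i.2.1.take s := by
          intro i
          simp only [w, wd]
          rw [List.take_append, List.take_of_length_le (by simp [br_length, hxl])]
          congr 1
          rw [List.length_append, br_length, hxl, show k + 2 + s - (k + 2) = s by omega,
            List.take_append_of_le_length (by rw [hyl]; exact hs)]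
        have hdrop : ∀ i : ↥(W k e) × ↥Y, (w i).drop (k + 2 + s) =
            i.2.1.drop s ++ (br e f0 i.2.1 ++
              (Z ((X i.1 : ZMod P) * code f 0 i.2.1)).1) := by
          intro i
          simp only [w, wd]
          rw [List.drop_append, List.drop_of_length_le (by simp [br_length, hxl]),
            List.nil_append, List.length_append, br_length, hxl,
            show k + 2 + s - (k + 2) = s by omega,
            List.drop_append_of_le_length (by rw [hyl]; exact hs)]
        have gtake : ∀ {x x' : ↥(W k e)} {y y' : ↥Y}, (w (x, y)).take (k + 2 + s) =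
            (w (x', y')).take (k + 2 + s) → x = x' ∧ y.1.take s = y'.1.take s := by
          intro x x' y y' h
          rw [htake, htake] at h
          obtain ⟨h6, h7⟩ := List.append_inj h (by simp [br_length, hxl])
          obtain ⟨h8, _⟩ := List.append_inj h6 (by rw [hxl, hxl])
          exact ⟨Subtype.ext h8, h7⟩
        have gdrop : ∀ {x x' : ↥(W k e)} {y y' : ↥Y}, (w (x, y)).drop (k + 2 + s) =
            (w (x', y')).drop (k + 2 + s) → y.1.drop s = y'.1.drop s ∧
              (X x : ZMod P) * code f 0 y.1 = X x' * code f 0 y'.1 := by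
          intro x x' y y' h
          rw [hdrop, hdrop] at h
          obtain ⟨h6, h7⟩ := List.append_inj h (by rw [List.length_drop, List.length_drop, hyl,
            hyl])
          obtain ⟨_, h8⟩ := List.append_inj h7 (by simp [br_length])
          exact ⟨h6, Z.injective (Subtype.ext h8)⟩
        obtain ⟨rfl, t1⟩ := gtake h1
        obtain ⟨rfl, t2⟩ := gtake h2
        obtain ⟨d1, m1⟩ := gdrop h3
        obtain ⟨d2, m2⟩ := gdrop h4
        have hcode : ∀ y : ↥Y, code f 0 y.1 = code f 0 (y.1.take s) + code f s (y.1.drop s) := by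
          intro y
          conv_lhs => rw [← List.take_append_drop s y.1]
          rw [code_append, zero_add, List.length_take, hyl, min_eq_left hs]
        rw [hcode y, hcode y', ← d1] at m1
        rw [hcode y1, hcode y1', ← d2, ← t1, ← t2] at m2
        have hprod : ((X x : ZMod P) - X x') *
            (code f s (y.1.drop s) - code f s (y1.1.drop s)) = 0 := by
          linear_combination m1 - m2
        rcases mul_eq_zero.1 hprod with h5 | h5
        · right
          have hX : (X x : ZMod P) = X x' := sub_eq_zero.1 h5
          have hxx : x = x' := X.injective (Units.ext hX)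
          rw [← hX] at m1
          have h6 := mul_left_cancel₀ (Units.ne_zero (X x)) m1
          have h7 : code f 0 (y.1.take s) = code f 0 (y'.1.take s) := add_right_cancel h6
          have h8 : y.1.take s = y'.1.take s := by
            by_contra hne
            exact hyb y (Or.inl ⟨s, hs, y'.1.take s, take_mem_W hs (hyW y'),
              fun e => hne e.symm, h7⟩)
          refine Prod.ext hxx (Subtype.ext ?_)
          change y.1 = y'.1
          rw [← List.take_append_drop s y.1, ← List.take_append_drop s y'.1, h8, d1]
        · left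
          have h6 := sub_eq_zero.1 h5
          have h8 : y.1.drop s = y1.1.drop s := by
            by_contra hne
            exact hyb y (Or.inr (Or.inl ⟨s, hs, y1.1.drop s, drop_mem_R hn (hyW y1),
              fun e => hne e.symm, h6⟩))
          refine Prod.ext rfl (Subtype.ext ?_)
          change y.1 = y1.1
          rw [← List.take_append_drop s y.1, ← List.take_append_drop s y1.1, h8, t1]
  -- the configuration
  let S : Finset (List (Letter n)) := univ.image w
  have hS : ∀ u ∈ S, ∃ i, w i = u := fun u hu => by
    obtain ⟨i, _, hi⟩ := mem_image.1 hu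
    exact ⟨i, hi⟩
  refine ⟨S.image mk, ?_, ?_, ?_⟩
  · apply ddc_of_c4 (L := 3 * k + 8) S
    · intro u hu
      obtain ⟨i, rfl⟩ := hS u hu
      exact hwred i
    · intro u hu
      obtain ⟨i, rfl⟩ := hS u hu
      exact hwlen i
    · intro p u hu v hv u' hu' v' hv' h1 h2 h3 h4
      obtain ⟨i, rfl⟩ := hS u hu
      obtain ⟨i1, rfl⟩ := hS v hv
      obtain ⟨i', rfl⟩ := hS u' hu'
      obtain ⟨i1', rfl⟩ := hS v' hv'
      rcases hC p i i1 i' i1' h1 h2 h3 h4 with h | h
      · exact Or.inl (congrArg w h)
      · exact Or.inr (congrArg w h)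
  · intro g hg h hh
    obtain ⟨u, hu, rfl⟩ := mem_image.1 hg
    obtain ⟨v, hv, rfl⟩ := mem_image.1 hh
    obtain ⟨i, rfl⟩ := hS u hu
    obtain ⟨j, rfl⟩ := hS v hv
    refine (FreeGroup.norm_mul_le _ _).trans ?_
    rw [norm_inv_eq]
    have h1 : (mk (w i) : FreeGroup (Fin n)).norm ≤ (w i).length := norm_mk_le
    have h2 : (mk (w j) : FreeGroup (Fin n)).norm ≤ (w j).length := norm_mk_le
    rw [hwlen] at h1 h2
    omega
  · rw [card_image_of_injOn, card_image_of_injective _ hwinj, card_univ, Fintype.card_prod,
      Fintype.card_coe, Fintype.card_coe, card_W, ← hq]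
    · calc q ^ (2 * k) = q ^ k * q ^ k := by ring
        _ ≤ q ^ k * (2 * Y.card) := Nat.mul_le_mul_left _ hf
        _ = 2 * (q ^ k * Y.card) := by ring
    · intro u hu v hv huv
      obtain ⟨i, rfl⟩ := hS u hu
      obtain ⟨j, rfl⟩ := hS v hv
      have := congrArg toWord huv
      rw [toWord_mk, toWord_mk, (hwred i).reduce_eq, (hwred j).reduce_eq] at this
      exact this

end Pool.Agent.X67.DDC
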