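import Pool.Agent.X67.DDC.Lower

/-!
# MP_db30a9_co: the upper bound
-/

set_option autoImplicit false

namespace Pool.Agent.X67.DDC

open Finset FreeGroup

variable {n : ℕ}

/-- a count of the edges of a bipartite graph without four-cycles -/
theorem card_le_of_c4 {A S : Type} [DecidableEq A] [DecidableEq S] (E : Finset (A × S))
    (TA : Finset A) (TS : Finset S) (hA : ∀ e ∈ E, e.1 ∈ TA) (hS : ∀ e ∈ E, e.2 ∈ TS)
    (hC : ∀ a a' s s', (a, s) ∈ E → (a, s') ∈ E → (a', s) ∈ E → (a', s') ∈ E →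
      a = a' ∨ s = s') :
    E.card ≤ TS.card + TA.card * TA.card := by
  let N : S → Finset A := fun s => TA.filter fun a => (a, s) ∈ E
  have h1 : E.card ≤ ∑ s ∈ TS, (N s).card := by
    rw [card_eq_sum_card_fiberwise (f := Prod.snd) (t := TS) hS]
    apply sum_le_sum
    intro s _
    apply card_le_card_of_injOn Prod.fst
    · intro e he
      rw [mem_coe, mem_filter] at he
      rw [mem_coe, mem_filter]
      refine ⟨hA e he.1, ?_⟩
      rw [← he.2]
      exact he.1
    · intro e he e' he' h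
      rw [mem_coe, mem_filter] at he he'
      exact Prod.ext h (he.2.trans he'.2.symm)
  have h2 : ∀ s, (N s).card ≤ 1 + (N s).offDiag.card := by
    intro s
    rw [offDiag_card]
    rcases Nat.lt_or_ge (N s).card 2 with h | h
    · omega
    · have : 2 * (N s).card ≤ (N s).card * (N s).card := Nat.mul_le_mul_right _ h
      omega
  have h3 : ∑ s ∈ TS, (N s).offDiag.card ≤ TA.card * TA.card := by
    rw [← card_biUnion]
    · rw [← card_product]
      apply card_le_card
      intro x hx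
      rw [mem_biUnion] at hx
      obtain ⟨s, _, hs⟩ := hx
      rw [mem_offDiag, mem_filter, mem_filter] at hs
      exact mem_product.2 ⟨hs.1.1, hs.2.1.1⟩
    · intro s _ s' _ hss
      rw [Function.onFun, disjoint_left]
      intro x h h'
      rw [mem_offDiag, mem_filter, mem_filter] at h h'
      rcases hC x.1 x.2 s s' h.1.2 h'.1.2 h.2.1.2 h'.2.1.2 with h4 | h4
      · exact h.2.2 h4
      · exact hss h4
  calc E.card ≤ ∑ s ∈ TS, (N s).card := h1
    _ ≤ ∑ s ∈ TS, (1 + (N s).offDiag.card) := sum_le_sum fun s _ => h2 s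
    _ = TS.card + ∑ s ∈ TS, (N s).offDiag.card := by
        rw [sum_add_distrib, sum_const, smul_eq_mul, mul_one]
    _ ≤ _ := Nat.add_le_add_left h3 _

/-- a set of diameter at most `d` lies in a ball of radius `(d + 1) / 2` -/
theorem exists_center {D : Finset (FreeGroup (Fin n))} {d : ℕ} (hD : DiamLE D d) :
    ∃ c : FreeGroup (Fin n), ∀ g ∈ D, (c⁻¹ * g).norm ≤ (d + 1) / 2 := by
  rcases D.eq_empty_or_nonempty with rfl | hne
  · exact ⟨1, fun g hg => absurd hg (notMem_empty g)⟩
  obtain ⟨⟨g0, h0⟩, hm, hmax⟩ := exists_max_image (D ×ˢ D) (fun x => (x.1⁻¹ * x.2).norm)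
    (hne.product hne)
  rw [mem_product] at hm
  set δ := (g0⁻¹ * h0).norm with hδ
  have hδd : δ ≤ d := hD g0 hm.1 h0 hm.2
  have hmax' : ∀ g ∈ D, ∀ h ∈ D, (g⁻¹ * h).norm ≤ δ := fun g hg h hh =>
    hmax (g, h) (mem_product.2 ⟨hg, hh⟩)
  refine ⟨g0 * mk ((g0⁻¹ * h0).toWord.take (δ / 2)), ?_⟩
  intro g hg
  refine le_trans ?_ (Nat.div_le_div_right (Nat.add_le_add_right hδd 1) : (δ + 1) / 2 ≤ _)
  obtain ⟨c, s, t, hs, ht, hst⟩ := split_prefix (g0⁻¹ * h0).toWord (g0⁻¹ * g).toWord
  have hlen1 : c.length + s.length = δ := by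
    rw [← List.length_append, ← hs]
    rfl
  have hlen2 : c.length + t.length ≤ δ := by
    rw [← List.length_append, ← ht]
    exact hmax' g0 hm.1 g hg
  have hlen3 : s.length + t.length ≤ δ := by
    have e1 := inv_mul_word (hs ▸ isReduced_toWord) (ht ▸ isReduced_toWord) hst
    rw [← hs, ← ht, mk_toWord, mk_toWord] at e1
    have e2 : (g0⁻¹ * h0)⁻¹ * (g0⁻¹ * g) = h0⁻¹ * g := by group
    rw [e2] at e1
    have e3 := hmax' h0 hm.2 g hg
    have e4 : (h0⁻¹ * g).norm = (invRev s ++ t).length := congrArg List.length e1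
    rw [List.length_append, invRev_length] at e4
    omega
  have hgoal : (g0 * mk ((g0⁻¹ * h0).toWord.take (δ / 2)))⁻¹ * g =
      (mk ((c ++ s).take (δ / 2)))⁻¹ * mk (c ++ t) := by
    rw [← hs, ← ht, mk_toWord]
    group
  rw [hgoal]
  by_cases hc : δ / 2 ≤ c.length
  · have e1 : (c ++ s).take (δ / 2) = (c ++ t).take (δ / 2) := by
      rw [List.take_append_of_le_length hc, List.take_append_of_le_length hc]
    have e2 : (mk ((c ++ s).take (δ / 2)))⁻¹ * mk (c ++ t) =
        (mk ((c ++ t).drop (δ / 2)) : FreeGroup (Fin n)) := by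
      rw [e1]
      conv_lhs => rw [← List.take_append_drop (δ / 2) (c ++ t)]
      rw [← mul_mk (L₁ := List.take (δ / 2) (c ++ t)), List.take_append_drop,
        inv_mul_cancel_left]
    rw [e2]
    refine norm_mk_le.trans ?_
    rw [List.length_drop, List.length_append]
    omega
  · push Not at hc
    have e1 : (c ++ s).take (δ / 2) = c ++ s.take (δ / 2 - c.length) := by
      rw [List.take_append, List.take_of_length_le hc.le]
    have e2 : (mk ((c ++ s).take (δ / 2)))⁻¹ * mk (c ++ t) =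
        (mk (s.take (δ / 2 - c.length)))⁻¹ * (mk t : FreeGroup (Fin n)) := by
      rw [e1, ← mul_mk, ← mul_mk]
      group
    rw [e2]
    refine (FreeGroup.norm_mul_le _ _).trans ?_
    rw [norm_inv_eq]
    have e3 : (mk (s.take (δ / 2 - c.length)) : FreeGroup (Fin n)).norm ≤ _ := norm_mk_le
    have e4 : (mk t : FreeGroup (Fin n)).norm ≤ _ := norm_mk_le
    rw [List.length_take] at e3
    have e5 := min_le_left (δ / 2 - c.length) s.length
    omega

/-- the number of short reduced words -/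
theorem card_short (hn : 2 ≤ n) (p : ℕ) :
    ((range (p + 1)).biUnion fun j => (R j : Finset (List (Letter n)))).card ≤
      3 * n * (2 * n - 1) ^ p := by
  refine card_biUnion_le.trans ?_
  calc ∑ j ∈ range (p + 1), (R j : Finset (List (Letter n))).card
      ≤ ∑ j ∈ range (p + 1), 2 * n * (2 * n - 1) ^ j := sum_le_sum fun j _ => card_R_le j
    _ = n * (2 * ∑ j ∈ range (p + 1), (2 * n - 1) ^ j) := by
        rw [← mul_sum]
        ring
    _ ≤ n * (3 * (2 * n - 1) ^ p) := Nat.mul_le_mul_left _ (sum_pow_le (by omega) p)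
    _ = _ := by ring

theorem mem_short (hn : 2 ≤ n) {p : ℕ} {l : List (Letter n)} (h1 : l.length ≤ p)
    (h2 : IsReduced l) : l ∈ (range (p + 1)).biUnion fun j => (R j : Finset (List (Letter n))) :=
  mem_biUnion.2 ⟨l.length, mem_range.2 (by omega), (mem_R hn).2 ⟨rfl, h2⟩⟩

/-- the upper bound -/
theorem upper (hn : 2 ≤ n) {D : Finset (FreeGroup (Fin n))} {d : ℕ} (hD : IsDDC D)
    (hd : DiamLE D d) :
    D.card ≤ 3 * n * (2 * n - 1) ^ ((d + 1) / 2 - (d + 1) / 2 / 3) +
      3 * n * (2 * n - 1) ^ ((d + 1) / 2 / 3) * (3 * n * (2 * n - 1) ^ ((d + 1) / 2 / 3)) := by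
  classical
  obtain ⟨c, hc⟩ := exists_center hd
  set r := (d + 1) / 2 with hr
  set p := r / 3 with hp
  let F : FreeGroup (Fin n) → List (Letter n) × List (Letter n) := fun g =>
    ((c⁻¹ * g).toWord.take p, (c⁻¹ * g).toWord.drop p)
  have hF : Function.Injective F := by
    intro g h e
    have e1 : (c⁻¹ * g).toWord.take p = (c⁻¹ * h).toWord.take p := congrArg Prod.fst e
    have e2 : (c⁻¹ * g).toWord.drop p = (c⁻¹ * h).toWord.drop p := congrArg Prod.snd e
    have e3 : (c⁻¹ * g).toWord = (c⁻¹ * h).toWord := by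
      rw [← List.take_append_drop p (c⁻¹ * g).toWord, e1, e2, List.take_append_drop]
    exact mul_left_cancel (toWord_injective e3)
  have hFm : ∀ g, (mk (F g).1 * mk (F g).2 : FreeGroup (Fin n)) = c⁻¹ * g := by
    intro g
    rw [mul_mk]
    change mk (_ ++ _) = _
    rw [List.take_append_drop, mk_toWord]
  rw [← card_image_of_injective D hF]
  refine (card_le_of_c4 (D.image F)
    ((range (p + 1)).biUnion fun j => (R j : Finset (List (Letter n))))
    ((range (r - p + 1)).biUnion fun j => (R j : Finset (List (Letter n)))) ?_ ?_ ?_).trans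
    (Nat.add_le_add (card_short hn _) (Nat.mul_le_mul (card_short hn _) (card_short hn _)))
  · intro x hx
    obtain ⟨g, _, rfl⟩ := mem_image.1 hx
    apply mem_short hn
    · rw [List.length_take]
      exact min_le_left _ _
    · exact red_take (isReduced_toWord (x := c⁻¹ * g)) p
  · intro x hx
    obtain ⟨g, hg, rfl⟩ := mem_image.1 hx
    apply mem_short hn
    · have h1 : (c⁻¹ * g).toWord.length ≤ r := hc g hg
      change ((c⁻¹ * g).toWord.drop p).length ≤ r - p
      rw [List.length_drop]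
      omega
    · exact red_drop (isReduced_toWord (x := c⁻¹ * g)) p
  · intro a a' s s' h1 h2 h3 h4
    obtain ⟨g1, hg1, e1⟩ := mem_image.1 h1
    obtain ⟨g2, hg2, e2⟩ := mem_image.1 h2
    obtain ⟨g3, hg3, e3⟩ := mem_image.1 h3
    obtain ⟨g4, hg4, e4⟩ := mem_image.1 h4
    by_contra hcon
    push Not at hcon
    have m1 := hFm g1
    have m2 := hFm g2
    have m3 := hFm g3
    have m4 := hFm g4
    rw [e1] at m1
    rw [e2] at m2
    rw [e3] at m3
    rw [e4] at m4
    have n12 : g1 ≠ g2 := fun h => hcon.2 (by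
      have : F g1 = F g2 := by rw [h]
      rw [e1, e2] at this
      exact congrArg Prod.snd this)
    have n34 : g3 ≠ g4 := fun h => hcon.2 (by
      have : F g3 = F g4 := by rw [h]
      rw [e3, e4] at this
      exact congrArg Prod.snd this)
    have heq : g1⁻¹ * g2 = g3⁻¹ * g4 := by
      have k1 : g1⁻¹ * g2 = (c⁻¹ * g1)⁻¹ * (c⁻¹ * g2) := by group
      have k2 : g3⁻¹ * g4 = (c⁻¹ * g3)⁻¹ * (c⁻¹ * g4) := by group
      rw [k1, k2, ← m1, ← m2, ← m3, ← m4]
      group
    have h5 := (hD g1 hg1 g2 hg2 g3 hg3 g4 hg4 n12 n34 heq).1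
    apply hcon.1
    have : F g1 = F g3 := by rw [h5]
    rw [e1, e3] at this
    exact congrArg Prod.fst this

/-- the maximum is attained -/
theorem maxDDC_bounds (hn : 2 ≤ n) (d : ℕ) :
    maxDDC n d ≤ 3 * n * (2 * n - 1) ^ ((d + 1) / 2 - (d + 1) / 2 / 3) +
      3 * n * (2 * n - 1) ^ ((d + 1) / 2 / 3) * (3 * n * (2 * n - 1) ^ ((d + 1) / 2 / 3)) ∧
    ∀ D : Finset (FreeGroup (Fin n)), IsDDC D → DiamLE D d → D.card ≤ maxDDC n d := by
  constructor
  · apply csSup_le
    · refine ⟨0, ∅, ?_, ?_, rfl⟩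
      · intro g hg
        exact absurd hg (notMem_empty g)
      · intro g hg
        exact absurd hg (notMem_empty g)
    · rintro N ⟨D, h1, h2, rfl⟩
      exact upper hn h1 h2
  · intro D h1 h2
    apply le_csSup
    · refine ⟨3 * n * (2 * n - 1) ^ ((d + 1) / 2 - (d + 1) / 2 / 3) +
        3 * n * (2 * n - 1) ^ ((d + 1) / 2 / 3) * (3 * n * (2 * n - 1) ^ ((d + 1) / 2 / 3)), ?_⟩
      rintro N ⟨D', h1', h2', rfl⟩
      exact upper hn h1' h2'
    · exact ⟨D, h1, h2, rfl⟩

end Pool.Agent.X67.DDC
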